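import Mathlib

/-! Eigenschemes of binary forms: all multiplicities occur, up to projective equivalence every
finite subscheme of the projective line is an eigenscheme. -/

set_option autoImplicit false

namespace Pool.Agent.Results.MP_3fe32a_ag.BinaryForms

open MvPolynomial

/-- The only `2 × 2` minor of the matrix with the rows `x₀, x₁` and `∂₀ f, ∂₁ f`: the equation of
the eigenscheme of the binary form `f` in the projective line. -/
noncomputable def minor (f : MvPolynomial (Fin 2) ℂ) : MvPolynomial (Fin 2) ℂ :=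
  X 0 * pderiv 1 f - X 1 * pderiv 0 f

/-- isotropic coordinate -/
noncomputable def u : MvPolynomial (Fin 2) ℂ := X 0 + C Complex.I * X 1

/-- isotropic coordinate -/
noncomputable def v : MvPolynomial (Fin 2) ℂ := X 0 - C Complex.I * X 1

theorem CI2 : (C Complex.I : MvPolynomial (Fin 2) ℂ) * C Complex.I = -1 := by
  rw [← C_mul, Complex.I_mul_I, map_neg, map_one]

theorem minor_u : minor u = C Complex.I * u := by
  unfold minor u
  simp only [map_add, pderiv_C_mul, pderiv_X_self, pderiv_X_of_ne, ne_eq, Fin.isValue,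
    one_ne_zero, zero_ne_one, not_false_eq_true]
  linear_combination -(X 1 : MvPolynomial (Fin 2) ℂ) * CI2

theorem minor_v : minor v = -(C Complex.I * v) := by
  unfold minor v
  simp only [map_sub, pderiv_C_mul, pderiv_X_self, pderiv_X_of_ne, ne_eq, Fin.isValue,
    one_ne_zero, zero_ne_one, not_false_eq_true]
  linear_combination -(X 1 : MvPolynomial (Fin 2) ℂ) * CI2

theorem minor_add (f g : MvPolynomial (Fin 2) ℂ) : minor (f + g) = minor f + minor g := by
  unfold minor
  simp only [map_add]
  ring

theorem minor_mul (f g : MvPolynomial (Fin 2) ℂ) :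
    minor (f * g) = f * minor g + g * minor f := by
  unfold minor
  simp only [Derivation.leibniz, smul_eq_mul]
  ring

theorem minor_C (a : ℂ) : minor (C a) = 0 := by
  unfold minor
  simp

theorem minor_pow (f : MvPolynomial (Fin 2) ℂ) (a : MvPolynomial (Fin 2) ℂ)
    (h : minor f = a * f) (n : ℕ) : minor (f ^ n) = (n : MvPolynomial (Fin 2) ℂ) * a * f ^ n := by
  induction n with
  | zero =>
    have : minor (1 : MvPolynomial (Fin 2) ℂ) = 0 := by
      have := minor_C 1
      rwa [C_1] at this
    simp [this]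
  | succ n ih =>
    rw [pow_succ, minor_mul, ih, h]
    push_cast
    ring

theorem minor_mono (c : ℂ) (k l : ℕ) :
    minor (C c * (u ^ k * v ^ l)) = C (c * (Complex.I * ((k : ℂ) - l))) * (u ^ k * v ^ l) := by
  rw [minor_mul, minor_C, minor_mul, minor_pow u _ minor_u, minor_pow v (-C Complex.I) (by
    rw [minor_v]; ring)]
  simp only [map_mul, map_sub, map_natCast]
  ring

theorem minor_sum {ι : Type} (s : Finset ι) (f : ι → MvPolynomial (Fin 2) ℂ) :
    minor (∑ i ∈ s, f i) = ∑ i ∈ s, minor (f i) := by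
  classical
  induction s using Finset.induction_on with
  | empty =>
    have := minor_C 0
    simpa using this
  | insert a s ha ih => rw [Finset.sum_insert ha, Finset.sum_insert ha, minor_add, ih]

/-- the binary form in the isotropic coordinates with the coefficients of a polynomial -/
noncomputable def H (d : ℕ) (p : Polynomial ℂ) : MvPolynomial (Fin 2) ℂ :=
  ∑ k ∈ Finset.range (d + 1), C (p.coeff k) * (u ^ k * v ^ (d - k))

theorem hom_u : u.IsHomogeneous 1 := by
  unfold u
  exact (isHomogeneous_X _ _).add ((isHomogeneous_C_mul_X _ _))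

theorem hom_v : v.IsHomogeneous 1 := by
  unfold v
  exact (isHomogeneous_X _ _).sub ((isHomogeneous_C_mul_X _ _))

theorem H_homogeneous (d : ℕ) (p : Polynomial ℂ) : (H d p).IsHomogeneous d := by
  unfold H
  apply IsHomogeneous.sum
  intro k hk
  rw [Finset.mem_range] at hk
  have h := (isHomogeneous_C (Fin 2) (p.coeff k)).mul
    ((hom_u.pow k).mul (hom_v.pow (d - k)))
  convert h using 1
  omega

/-- forms without middle coefficient are minors -/
theorem exists_minor (d : ℕ) (p : Polynomial ℂ) (hp : ∀ k, 2 * k = d → p.coeff k = 0) :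
    ∃ f : MvPolynomial (Fin 2) ℂ, f.IsHomogeneous d ∧ minor f = H d p := by
  refine ⟨∑ k ∈ Finset.range (d + 1),
    C (p.coeff k / (Complex.I * ((k : ℂ) - (d - k : ℕ)))) * (u ^ k * v ^ (d - k)), ?_, ?_⟩
  · apply IsHomogeneous.sum
    intro k hk
    rw [Finset.mem_range] at hk
    have h := (isHomogeneous_C (Fin 2) (p.coeff k / (Complex.I * ((k : ℂ) - (d - k : ℕ))))).mul
      ((hom_u.pow k).mul (hom_v.pow (d - k)))
    convert h using 1
    omega
  · rw [minor_sum]
    unfold H
    apply Finset.sum_congr rfl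
    intro k hk
    rw [Finset.mem_range] at hk
    rw [minor_mono]
    by_cases h : 2 * k = d
    · rw [hp k h]
      simp
    · have h1 : ((k : ℂ) - (d - k : ℕ)) ≠ 0 := by
        intro h2
        rw [sub_eq_zero] at h2
        have h3 : k = d - k := by exact_mod_cast h2
        omega
      rw [div_mul_cancel₀]
      exact mul_ne_zero Complex.I_ne_zero h1

theorem H_add (d : ℕ) (p q : Polynomial ℂ) : H d (p + q) = H d p + H d q := by
  unfold H
  rw [← Finset.sum_add_distrib]
  apply Finset.sum_congr rfl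
  intro k _
  rw [Polynomial.coeff_add, C_add]
  ring

theorem H_smul (d : ℕ) (c : ℂ) (p : Polynomial ℂ) : H d (Polynomial.C c * p) = C c * H d p := by
  unfold H
  rw [Finset.mul_sum]
  apply Finset.sum_congr rfl
  intro k _
  rw [Polynomial.coeff_C_mul, C_mul]
  ring

theorem H_sum {ι : Type} (d : ℕ) (s : Finset ι) (p : ι → Polynomial ℂ) :
    H d (∑ i ∈ s, p i) = ∑ i ∈ s, H d (p i) := by
  classical
  induction s using Finset.induction_on with
  | empty => simp [H]
  | insert a s ha ih => rw [Finset.sum_insert ha, Finset.sum_insert ha, H_add, ih]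

theorem H_X (d : ℕ) (p : Polynomial ℂ) :
    H (d + 1) (Polynomial.X * p) = u * H d p := by
  unfold H
  rw [Finset.sum_range_succ']
  simp only [Polynomial.coeff_X_mul, Polynomial.mul_coeff_zero, Polynomial.coeff_X_zero,
    zero_mul, C_0, add_zero]
  rw [Finset.mul_sum]
  apply Finset.sum_congr rfl
  intro k hk
  have : d + 1 - (k + 1) = d - k := by omega
  rw [this]
  ring

theorem H_one (d : ℕ) (p : Polynomial ℂ) (hp : p.natDegree ≤ d) :
    H (d + 1) p = v * H d p := by
  unfold H
  have e2 : p.coeff (d + 1) = 0 := Polynomial.coeff_eq_zero_of_natDegree_lt (by omega)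
  rw [Finset.sum_range_succ, e2]
  simp only [C_0, zero_mul, add_zero]
  rw [Finset.mul_sum]
  apply Finset.sum_congr rfl
  intro k hk
  rw [Finset.mem_range] at hk
  have : d + 1 - k = (d - k) + 1 := by omega
  rw [this]
  ring

theorem H_succ (d : ℕ) (a c : ℂ) (p : Polynomial ℂ) (hp : p.natDegree ≤ d) :
    H (d + 1) ((Polynomial.C a * Polynomial.X + Polynomial.C c) * p) =
      (C a * u + C c * v) * H d p := by
  rw [add_mul, H_add, mul_assoc, H_smul, H_smul, H_X, H_one d p hp]
  ring

theorem natDegree_lin (a c : ℂ) (m : ℕ) :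
    ((Polynomial.C a * Polynomial.X + Polynomial.C c) ^ m).natDegree ≤ m := by
  refine Polynomial.natDegree_pow_le.trans ?_
  have := Polynomial.natDegree_linear_le (a := a) (b := c)
  calc m * _ ≤ m * 1 := Nat.mul_le_mul_left m this
    _ = m := mul_one m

theorem H_pow (d : ℕ) (a c : ℂ) (p : Polynomial ℂ) (hp : p.natDegree ≤ d) (m : ℕ) :
    H (m + d) ((Polynomial.C a * Polynomial.X + Polynomial.C c) ^ m * p) =
      (C a * u + C c * v) ^ m * H d p := by
  induction m with
  | zero => simp
  | succ m ih =>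
    have e : (Polynomial.C a * Polynomial.X + Polynomial.C c) ^ (m + 1) * p =
      (Polynomial.C a * Polynomial.X + Polynomial.C c) *
        ((Polynomial.C a * Polynomial.X + Polynomial.C c) ^ m * p) := by ring
    have e2 : m + 1 + d = (m + d) + 1 := by ring
    rw [e, e2, H_succ, ih]
    · ring
    · refine Polynomial.natDegree_mul_le.trans ?_
      have := natDegree_lin a c m
      omega

theorem H_const (c : ℂ) : H 0 (Polynomial.C c) = C c := by
  simp [H]

/-- homogenization of the restriction of a form to an affine line -/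
theorem H_line (d : ℕ) (g : MvPolynomial (Fin 2) ℂ) (hg : g.IsHomogeneous d) (P Q : Fin 2 → ℂ) :
    H d (aeval (fun i => Polynomial.C (P i) * Polynomial.X + Polynomial.C (Q i)) g) =
      aeval (fun i => C (P i) * u + C (Q i) * v) g := by
  conv_rhs => rw [g.as_sum]
  conv_lhs => rw [g.as_sum]
  rw [map_sum, map_sum, H_sum]
  apply Finset.sum_congr rfl
  intro s hs
  have h1 : s 0 + s 1 = d := by
    have := hg (mem_support_iff.1 hs)
    rw [Finsupp.weight_apply, Finsupp.sum_fintype] at this
    · simpa using this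
    · simp
  rw [aeval_monomial, aeval_monomial]
  have h2 : ∀ {R : Type} [CommRing R] (w : Fin 2 → R),
      (s.prod fun i k => w i ^ k) = w 0 ^ s 0 * w 1 ^ s 1 := by
    intro R _ w
    rw [Finsupp.prod_fintype]
    · simp
    · simp
  rw [h2, h2]
  have e : (algebraMap ℂ (Polynomial ℂ)) (coeff s g) = Polynomial.C (coeff s g) := rfl
  have e' : (algebraMap ℂ (MvPolynomial (Fin 2) ℂ)) (coeff s g) = C (coeff s g) := rfl
  rw [e, e', H_smul]
  congr 1
  have h3 := H_pow 0 (P 1) (Q 1) (Polynomial.C 1) (by simp) (s 1)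
  rw [H_const] at h3
  simp only [C_1, mul_one, Polynomial.C_1, add_zero] at h3
  have h4 := H_pow (s 1) (P 0) (Q 0)
    ((Polynomial.C (P 1) * Polynomial.X + Polynomial.C (Q 1)) ^ s 1) (natDegree_lin _ _ _) (s 0)
  rw [h3, h1] at h4
  exact h4

theorem shift (d : ℕ) (hd : 0 < d) (q : Polynomial ℂ) (hq : q.natDegree = d) :
    ∃ z : ℂ, ∀ k, 2 * k = d → (Polynomial.taylor z q).coeff k = 0 := by
  by_cases h : ∃ k, 2 * k = d
  · obtain ⟨k, hk⟩ := h
    have h1 : (Polynomial.hasseDeriv k q).natDegree = k := by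
      rw [Polynomial.natDegree_hasseDeriv, hq]
      omega
    obtain ⟨z, hz⟩ := IsAlgClosed.exists_root (Polynomial.hasseDeriv k q) (by
      intro h2
      have h3 := Polynomial.natDegree_eq_of_degree_eq_some (n := 0) (by simpa using h2)
      omega)
    refine ⟨z, fun k' hk' => ?_⟩
    have : k' = k := by omega
    subst this
    rw [Polynomial.taylor_coeff]
    exact hz
  · exact ⟨0, fun k hk => absurd ⟨k, hk⟩ h⟩

/-- restriction to the affine line `P * t + Q` -/
noncomputable def line (g : MvPolynomial (Fin 2) ℂ) (P Q : Fin 2 → ℂ) : Polynomial ℂ :=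
  aeval (fun i => Polynomial.C (P i) * Polynomial.X + Polynomial.C (Q i)) g

theorem line_natDegree_le (d : ℕ) (g : MvPolynomial (Fin 2) ℂ) (hg : g.IsHomogeneous d)
    (P Q : Fin 2 → ℂ) : (line g P Q).natDegree ≤ d := by
  unfold line
  rw [g.as_sum, map_sum]
  apply Polynomial.natDegree_sum_le_of_forall_le
  intro s hs
  have h1 : s 0 + s 1 = d := by
    have := hg (mem_support_iff.1 hs)
    rw [Finsupp.weight_apply, Finsupp.sum_fintype] at this
    · simpa using this
    · simp
  rw [aeval_monomial, Finsupp.prod_fintype _ _ (by simp)]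
  have e : (algebraMap ℂ (Polynomial ℂ)) (coeff s g) = Polynomial.C (coeff s g) := rfl
  rw [e, Fin.prod_univ_two]
  refine (Polynomial.natDegree_C_mul_le _ _).trans ?_
  refine Polynomial.natDegree_mul_le.trans ?_
  rw [← h1]
  exact Nat.add_le_add (natDegree_lin _ _ _) (natDegree_lin _ _ _)

theorem line_coeff (d : ℕ) (g : MvPolynomial (Fin 2) ℂ) (hg : g.IsHomogeneous d)
    (P Q : Fin 2 → ℂ) : (line g P Q).coeff d = eval P g := by
  have h := congrArg (aeval (![1 / 2, 1 / (2 * Complex.I)] : Fin 2 → ℂ)) (H_line d g hg P Q)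
  have hu : aeval (![1 / 2, 1 / (2 * Complex.I)] : Fin 2 → ℂ) u = (1 : ℂ) := by
    unfold u
    simp only [map_add, map_mul, aeval_X, aeval_C, Matrix.cons_val_zero, Matrix.cons_val_one,
      Algebra.algebraMap_self, RingHom.id_apply]
    have := Complex.I_ne_zero
    field_simp
    norm_num
  have hv : aeval (![1 / 2, 1 / (2 * Complex.I)] : Fin 2 → ℂ) v = (0 : ℂ) := by
    unfold v
    simp only [map_sub, map_mul, aeval_X, aeval_C, Matrix.cons_val_zero, Matrix.cons_val_one,
      Algebra.algebraMap_self, RingHom.id_apply]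
    have := Complex.I_ne_zero
    field_simp
    norm_num
  rw [comp_aeval_apply] at h
  unfold H at h
  rw [map_sum, Finset.sum_range_succ, Finset.sum_eq_zero] at h
  · simp only [map_add, map_mul, map_pow, hu, hv, aeval_C, Algebra.algebraMap_self,
      RingHom.id_apply, one_pow, tsub_self, pow_zero, mul_one, mul_zero, add_zero, zero_add] at h
    unfold line
    rw [h, aeval_def]
    rfl
  · intro k hk
    rw [Finset.mem_range] at hk
    simp only [map_mul, map_pow, hv]
    rw [zero_pow (by omega)]
    ring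

theorem taylor_line (g : MvPolynomial (Fin 2) ℂ) (P Q : Fin 2 → ℂ) (z : ℂ) :
    Polynomial.taylor z (line g P Q) = line g P (fun i => Q i + z * P i) := by
  have e : ∀ q : Polynomial ℂ, Polynomial.taylor z q =
      Polynomial.aeval (Polynomial.X + Polynomial.C z) q := fun q => rfl
  rw [e]
  unfold line
  rw [comp_aeval_apply]
  congr 2
  funext i
  simp only [map_add, map_mul, Polynomial.aeval_X, Polynomial.aeval_C]
  have e : ∀ a : ℂ, (algebraMap ℂ (Polynomial ℂ)) a = Polynomial.C a := fun a => rfl
  rw [e, e]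
  ring

/-- Every binary form is a minor after an invertible linear substitution. -/
theorem every (d : ℕ) (g : MvPolynomial (Fin 2) ℂ) (hd : 0 < d) (hg : g.IsHomogeneous d) :
    ∃ (A : Matrix (Fin 2) (Fin 2) ℂ) (f : MvPolynomial (Fin 2) ℂ), A.det ≠ 0 ∧
      f.IsHomogeneous d ∧ minor f = aeval (fun i => C (A i 0) * X 0 + C (A i 1) * X 1) g := by
  by_cases h0 : g = 0
  · refine ⟨1, 0, by simp, isHomogeneous_zero _ _ _, ?_⟩
    rw [h0]
    simp [minor]
  obtain ⟨P, hP⟩ : ∃ P, eval P g ≠ 0 := by
    by_contra hc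
    push Not at hc
    exact h0 (MvPolynomial.funext fun x => by rw [hc x, map_zero])
  have hP0 : P ≠ 0 := by
    rintro rfl
    apply hP
    rw [eval_zero, constantCoeff_eq]
    exact hg.coeff_eq_zero (by simp; omega)
  obtain ⟨Q, hQ⟩ : ∃ Q : Fin 2 → ℂ, P 0 * Q 1 - P 1 * Q 0 ≠ 0 := by
    by_cases h : P 0 = 0
    · refine ⟨![1, 0], ?_⟩
      have h1 : P 1 ≠ 0 := by
        intro h1
        apply hP0
        funext i
        fin_cases i
        · exact h
        · exact h1
      simpa using h1
    · exact ⟨![0, 1], by simpa using h⟩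
  have hdeg : (line g P Q).natDegree = d := by
    apply le_antisymm (line_natDegree_le d g hg P Q)
    apply Polynomial.le_natDegree_of_ne_zero
    rw [line_coeff d g hg P Q]
    exact hP
  obtain ⟨z, hz⟩ := shift d hd _ hdeg
  rw [taylor_line] at hz
  obtain ⟨f, hf, hfm⟩ := exists_minor d _ hz
  refine ⟨Matrix.of fun i j => if j = 0 then P i + (Q i + z * P i)
    else Complex.I * (P i - (Q i + z * P i)), f, ?_, hf, ?_⟩
  · rw [Matrix.det_fin_two]
    simp only [Matrix.of_apply, if_true, one_ne_zero, if_false, Fin.isValue]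
    have : (P 0 + (Q 0 + z * P 0)) * (Complex.I * (P 1 - (Q 1 + z * P 1))) -
        Complex.I * (P 0 - (Q 0 + z * P 0)) * (P 1 + (Q 1 + z * P 1)) =
        -2 * Complex.I * (P 0 * Q 1 - P 1 * Q 0) := by ring
    rw [this]
    exact mul_ne_zero (mul_ne_zero (by norm_num) Complex.I_ne_zero) hQ
  · rw [hfm]
    unfold line
    rw [H_line d g hg]
    congr 2
    funext i
    unfold u v
    simp only [Matrix.of_apply, if_true, one_ne_zero, if_false, Fin.isValue, C_add, C_mul,
      C_sub]
    ring

/-- (1) Let `d ≥ 1`. Every form `g` of degree `d` in two variables becomes, after an invertible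
linear substitution, the equation `x₀ ∂₁ f - x₁ ∂₀ f` of the eigenscheme of a form `f` of degree
`d`.
(2) For all `r ≥ 1` and `m₁, …, m_r ≥ 1` with the sum `d` there is a form `f` of degree `d`
such that the equation of its eigenscheme is the product of the powers `l_i ^ m_i` of pairwise
non-proportional linear forms `l_i`. -/
theorem result :
    (∀ (d : ℕ) (g : MvPolynomial (Fin 2) ℂ), 0 < d → g.IsHomogeneous d →
      ∃ (A : Matrix (Fin 2) (Fin 2) ℂ) (f : MvPolynomial (Fin 2) ℂ), A.det ≠ 0 ∧
        f.IsHomogeneous d ∧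
          minor f = aeval (fun i => C (A i 0) * X 0 + C (A i 1) * X 1) g) ∧
    (∀ (r : ℕ) (m : Fin r → ℕ), 0 < r → (∀ i, 0 < m i) →
      ∃ (a b : Fin r → ℂ) (f : MvPolynomial (Fin 2) ℂ),
        (∀ i j, i ≠ j → a i * b j ≠ a j * b i) ∧ f.IsHomogeneous (∑ i, m i) ∧
          minor f = ∏ i, (C (a i) * X 0 + C (b i) * X 1) ^ m i) := by
  refine ⟨fun d g hd hg => every d g hd hg, fun r m hr hm => ?_⟩
  have hpos : 0 < ∑ i, m i :=
    Finset.sum_pos (fun i _ => hm i) ⟨⟨0, hr⟩, Finset.mem_univ _⟩
  have hhom : (∏ i : Fin r, (X 0 + C (i.val : ℂ) * X 1 : MvPolynomial (Fin 2) ℂ) ^ m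
      i).IsHomogeneous (∑ i, m i) := by
    apply IsHomogeneous.prod
    intro i _
    have h := (((isHomogeneous_X ℂ (0 : Fin 2)).add
      (isHomogeneous_C_mul_X (i.val : ℂ) (1 : Fin 2))).pow (m i))
    rwa [one_mul] at h
  obtain ⟨A, f, hA, hf, hfm⟩ := every _ _ hpos hhom
  refine ⟨fun i => A 0 0 + i.val * A 1 0, fun i => A 0 1 + i.val * A 1 1, f, ?_, hf, ?_⟩
  · intro i j hij h
    have h1 : ((i.val : ℂ) - j.val) * A.det = 0 := by
      rw [Matrix.det_fin_two]
      linear_combination -h
    rcases mul_eq_zero.1 h1 with h2 | h2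
    · rw [sub_eq_zero] at h2
      exact hij (Fin.ext (by exact_mod_cast h2))
    · exact hA h2
  · rw [hfm, map_prod]
    apply Finset.prod_congr rfl
    intro i _
    rw [map_pow]
    congr 1
    simp only [map_add, map_mul, aeval_X, aeval_C]
    have e : (algebraMap ℂ (MvPolynomial (Fin 2) ℂ)) (i.val : ℂ) = C (i.val : ℂ) := rfl
    rw [e]
    ring

end Pool.Agent.Results.MP_3fe32a_ag.BinaryForms
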